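import Mathlib
import Pool.Agent.H42.OmB

open Pool.Agent.H42.OmB

/-- Under `p > ω₁`, for `K = ℝ / ℤ` and for `K = ℤ(p)` with `p` prime, every dense countably
compact subgroup of `K ^ ω₁` contains an uncountable compact set. -/
theorem Pool.Agent.Results.MP_e377f6_gt.Cons.result (h : PBig) :
    (∀ D : AddSubgroup ((Ordinal.omega.{0} 1).ToType → UnitAddCircle),
      Dense (D : Set ((Ordinal.omega.{0} 1).ToType → UnitAddCircle)) → CountablyCompactSpace D →
        ∃ C : Set D, IsCompact C ∧ ¬ C.Countable) ∧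
    ∀ p : ℕ, p.Prime → ∀ D : AddSubgroup ((Ordinal.omega.{0} 1).ToType → ZMod p),
      Dense (D : Set ((Ordinal.omega.{0} 1).ToType → ZMod p)) → CountablyCompactSpace D →
        ∃ C : Set D, IsCompact C ∧ ¬ C.Countable := by
  have key : ∀ (K : Type) [TopologicalSpace K] [T2Space K] [SecondCountableTopology K]
      [CompactSpace K] [Nontrivial K] (D : Set ((Ordinal.omega.{0} 1).ToType → K)), Dense D →
      CountablyCompactSpace D → ∃ C : Set D, IsCompact C ∧ ¬ C.Countable := by
    intro K _ _ _ _ _ D hd hD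
    obtain ⟨C, hC, hc, hn⟩ := unc h hd (isCountablyCompact_iff_countablyCompactSpace.2 hD)
    refine ⟨Subtype.val ⁻¹' C,
      Topology.IsInducing.subtypeVal.isCompact_preimage' hc (by simpa using hC), fun hC' => hn ?_⟩
    refine (hC'.image (Subtype.val : D → _)).mono ?_
    intro x hx
    exact ⟨⟨x, hC hx⟩, hx, rfl⟩
  refine ⟨fun D => ?_, fun p hp D => ?_⟩
  · have : Nontrivial UnitAddCircle := ⟨⟨((1 / 2 : ℝ) : UnitAddCircle), 0, fun h0 => by
      obtain ⟨n, hn⟩ := (AddCircle.coe_eq_zero_iff (1 : ℝ)).1 h0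
      have h2 : ((2 * n : ℤ) : ℝ) = (1 : ℤ) := by
        simp only [zsmul_eq_mul, mul_one] at hn
        push_cast; linarith
      have := Int.cast_injective h2
      omega⟩⟩
    exact key UnitAddCircle D
  · have := Fact.mk hp
    exact key (ZMod p) D
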